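import Pool.Agent.R271.Weak
import Pool.Agent.R271.Basic
import Pool.Agent.R271.Coding

/-!
# The classes of spaces with the D2P and with the DD2P are `G_δ`
-/

open Filter Topology Metric Set
open Pool.Agent.R271.Coding

namespace Pool.Agent.Results.MP_146262_an.DiameterTwoGdelta

/-- Relatively weakly open subsets of the unit ball. -/
def IsRelWeaklyOpen {X : Type} [NormedAddCommGroup X] [NormedSpace ℝ X] (W : Set X) : Prop :=
  ∃ U : Set (WeakSpace ℝ X), IsOpen U ∧ W = {x : X | ‖x‖ ≤ 1 ∧ toWeakSpace ℝ X x ∈ U}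

/-- The diameter two property. -/
def D2P (X : Type) [NormedAddCommGroup X] [NormedSpace ℝ X] : Prop :=
  ∀ W : Set X, IsRelWeaklyOpen W → W.Nonempty → Metric.diam W = 2

/-- The diametral diameter two property. -/
def DD2P (X : Type) [NormedAddCommGroup X] [NormedSpace ℝ X] : Prop :=
  ∀ W : Set X, IsRelWeaklyOpen W → W.Nonempty → ∀ x ∈ W, ∀ ε : ℝ, 0 < ε →
    ∃ y ∈ W, 1 + ‖x‖ - ε ≤ ‖x - y‖

/-- The space `𝒫` of all pseudonorms on `V = ℕ →₀ ℚ` with the topology of pointwise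
convergence. -/
def PN : Type := {μ : V → ℝ // IsPN μ}

instance : TopologicalSpace PN := instTopologicalSpaceSubtype

/-- The space `𝒫_∞` of the pseudonorms which code an infinite-dimensional space. -/
def Pinf : Type := {μ : PN // ∃ (X : Type) (_ : NormedAddCommGroup X) (_ : NormedSpace ℝ X)
  (ι : V →+ X), Codes X μ.1 ι ∧ ¬ FiniteDimensional ℝ X}

instance : TopologicalSpace Pinf := instTopologicalSpaceSubtype

/-- The class in `𝒫_∞` of a property of Banach spaces. -/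
def classOf (Q : ∀ (X : Type) [NormedAddCommGroup X] [NormedSpace ℝ X], Prop) : Set Pinf :=
  {μ | ∃ (X : Type) (_ : NormedAddCommGroup X) (_ : NormedSpace ℝ X) (ι : V →+ X),
    Codes X μ.1.1 ι ∧ Q X}

/-! ### The combinatorial condition -/

/-- The quantity to be bounded below. -/
def gg (b : Bool) {A : Type} [AddCommGroup A] (N : A → ℝ) (x y z : A) : ℝ :=
  if b then N (y - z) - 2 else N (x - y) - 1 - N x

/-- The first part of the condition. -/
def Good (b : Bool) (μ : V → ℝ) (x : V) (m : ℕ) (F : Finset (V × V)) : Prop :=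
  ∀ p ∈ F, μ p.1 < 1 ∧ μ p.2 < 1 ∧ -(1 / ((m : ℝ) + 1)) < gg b μ x p.1 p.2

/-- Closeness for a tuple of functionals. -/
def Close {n : ℕ} (φ : Fin n → V → ℝ) (x : V) (m : ℕ) (p : V × V) : Prop :=
  ∀ i, |φ i p.1 - φ i x| < 1 / ((m : ℝ) + 1) ∧ |φ i p.2 - φ i x| < 1 / ((m : ℝ) + 1)

/-- The second part of the condition. -/
def Cov (μ : V → ℝ) (x : V) (m n : ℕ) (F : Finset (V × V)) : Prop :=
  ∀ φ : Fin n → V → ℝ, (∀ i, IsFun μ (φ i)) → ∃ p ∈ F, Close φ x m p

/-- The condition. -/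
def Cond (b : Bool) (μ : V → ℝ) : Prop :=
  ∀ (x : V) (m n : ℕ), 1 ≤ μ x ∨ ∃ F : Finset (V × V), Good b μ x m F ∧ Cov μ x m n F

lemma isOpen_close {n : ℕ} (x : V) (m : ℕ) (p : V × V) :
    IsOpen {φ : Fin n → V → ℝ | Close φ x m p} := by
  have h1 : {φ : Fin n → V → ℝ | Close φ x m p} = ⋂ i : Fin n, {φ : Fin n → V → ℝ |
      |φ i p.1 - φ i x| < 1 / ((m : ℝ) + 1) ∧ |φ i p.2 - φ i x| < 1 / ((m : ℝ) + 1)} := by
    ext φ
    rw [mem_iInter]
    rfl
  rw [h1]
  refine isOpen_iInter_of_finite fun i => ?_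
  have hc : ∀ w : V, Continuous (fun φ : Fin n → V → ℝ => φ i w) := fun w =>
    (continuous_apply w).comp (continuous_apply i)
  exact (isOpen_lt ((hc _).sub (hc _)).abs continuous_const).inter
    (isOpen_lt ((hc _).sub (hc _)).abs continuous_const)

lemma continuous_val (v : V) : Continuous (fun μ : PN => μ.1 v) :=
  (continuous_apply v).comp continuous_subtype_val

lemma isOpen_good (b : Bool) (x : V) (m : ℕ) (F : Finset (V × V)) :
    IsOpen {μ : PN | Good b μ.1 x m F} := by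
  have h1 : {μ : PN | Good b μ.1 x m F} = ⋂ p ∈ F, {μ : PN | μ.1 p.1 < 1 ∧ μ.1 p.2 < 1 ∧
      -(1 / ((m : ℝ) + 1)) < gg b μ.1 x p.1 p.2} := by
    ext μ
    rw [mem_iInter₂]
    rfl
  rw [h1]
  refine isOpen_biInter_finset fun p _ => ?_
  have hc : Continuous (fun μ : PN => gg b μ.1 x p.1 p.2) := by
    cases b
    · exact ((continuous_val _).sub continuous_const).sub (continuous_val _)
    · exact (continuous_val _).sub continuous_const
  have h2 : IsOpen {μ : PN | -(1 / ((m : ℝ) + 1)) < gg b μ.1 x p.1 p.2} :=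
    isOpen_lt continuous_const hc
  have h3 : ∀ v : V, IsOpen {μ : PN | μ.1 v < 1} := fun v =>
    isOpen_lt (continuous_val v) continuous_const
  exact (h3 p.1).inter ((h3 p.2).inter h2)

lemma isOpen_cov (x : V) (m n : ℕ) (F : Finset (V × V)) :
    IsOpen {μ : PN | Cov μ.1 x m n F} := by
  have hC : IsClosed {φ : Fin n → V → ℝ | ∀ p ∈ F, ¬ Close φ x m p} := by
    have h1 : {φ : Fin n → V → ℝ | ∀ p ∈ F, ¬ Close φ x m p} =
        ⋂ p ∈ F, {φ : Fin n → V → ℝ | Close φ x m p}ᶜ := by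
      ext φ
      rw [mem_iInter₂]
      rfl
    rw [h1]
    exact isClosed_biInter fun p _ => (isOpen_close x m p).isClosed_compl
  have h2 := isClosed_exists_fun (fun μ : PN => μ.1) continuous_subtype_val n hC
  rw [← isOpen_compl_iff] at h2
  have h3 : {μ : PN | Cov μ.1 x m n F} = {μ : PN | ∃ φ : Fin n → V → ℝ,
      (∀ i, IsFun μ.1 (φ i)) ∧ φ ∈ {φ : Fin n → V → ℝ | ∀ p ∈ F, ¬ Close φ x m p}}ᶜ := by
    ext μ
    constructor
    · rintro h ⟨φ, h1, h2⟩
      obtain ⟨p, hp, hc⟩ := h φ h1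
      exact h2 p hp hc
    · intro h φ hφ
      by_contra hcon
      push Not at hcon
      exact h ⟨φ, hφ, hcon⟩
  rw [h3]
  exact h2

lemma isGdelta_cond (b : Bool) : IsGδ {μ : PN | Cond b μ.1} := by
  have h1 : {μ : PN | Cond b μ.1} = ⋂ (x : V) (m : ℕ) (n : ℕ),
      ((⋂ k : ℕ, {μ : PN | 1 - 1 / ((k : ℝ) + 1) < μ.1 x}) ∪
        (⋃ F : Finset (V × V), ({μ : PN | Good b μ.1 x m F} ∩ {μ : PN | Cov μ.1 x m n F}))) := by
    ext μ
    rw [mem_iInter]
    refine forall_congr' fun x => ?_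
    rw [mem_iInter]
    refine forall_congr' fun m => ?_
    rw [mem_iInter]
    refine forall_congr' fun n => ?_
    rw [mem_union, mem_iInter, mem_iUnion]
    refine or_congr ?_ Iff.rfl
    constructor
    · intro h k
      show 1 - 1 / ((k : ℝ) + 1) < μ.1 x
      have : 0 < 1 / ((k : ℝ) + 1) := by positivity
      linarith
    · intro h
      apply le_of_forall_pos_lt_add
      intro ε hε
      obtain ⟨k, hk⟩ := exists_nat_one_div_lt hε
      have h2 : 1 - 1 / ((k : ℝ) + 1) < μ.1 x := h k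
      linarith
  rw [h1]
  refine IsGδ.iInter fun x => IsGδ.iInter fun m => IsGδ.iInter fun n => IsGδ.union ?_ ?_
  · exact IsGδ.iInter fun k => (isOpen_lt continuous_const (continuous_val x)).isGδ
  · exact (isOpen_iUnion fun F => (isOpen_good b x m F).inter (isOpen_cov x m n F)).isGδ

/-! ### The condition in terms of the Banach space -/

section space

variable {X : Type} [NormedAddCommGroup X] [NormedSpace ℝ X] {μ : V → ℝ} {ι : V →+ X}

/-- The intermediate property. -/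
def QQ (b : Bool) (ι : V →+ X) : Prop :=
  ∀ v : V, ‖ι v‖ < 1 → ∀ (n : ℕ) (f : Fin n → StrongDual ℝ X), (∀ i, ‖f i‖ ≤ 1) → ∀ m : ℕ,
    ∃ y z : X, ‖y‖ ≤ 1 ∧ ‖z‖ ≤ 1 ∧ (∀ i, |f i y - f i (ι v)| < 1 / ((m : ℝ) + 1) ∧
      |f i z - f i (ι v)| < 1 / ((m : ℝ) + 1)) ∧
      -(1 / ((m : ℝ) + 1)) < gg b (fun x : X => ‖x‖) (ι v) y z

lemma gg_codes (hc : Codes X μ ι) (b : Bool) (x y z : V) :
    gg b (fun x : X => ‖x‖) (ι x) (ι y) (ι z) = gg b μ x y z := by
  cases b
  · show ‖ι x - ι y‖ - 1 - ‖ι x‖ = μ (x - y) - 1 - μ x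
    rw [← map_sub, hc.norm, hc.norm]
  · show ‖ι y - ι z‖ - 2 = μ (y - z) - 2
    rw [← map_sub, hc.norm]

lemma continuous_gg (b : Bool) (x : X) :
    Continuous (fun p : X × X => gg b (fun x : X => ‖x‖) x p.1 p.2) := by
  cases b
  · show Continuous (fun p : X × X => ‖x - p.1‖ - 1 - ‖x‖)
    fun_prop
  · show Continuous (fun p : X × X => ‖p.1 - p.2‖ - 2)
    fun_prop

lemma qq_of_cond (hc : Codes X μ ι) {b : Bool} (h : Cond b μ) : QQ b ι := by
  intro v hv n f hf m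
  rcases h v m n with h1 | ⟨F, hF1, hF2⟩
  · rw [hc.norm] at hv
    linarith
  · obtain ⟨p, hp, hclose⟩ := hF2 (fun i v => f i (ι v)) (fun i => isFun_of_dual hc (f i) (hf i))
    obtain ⟨g1, g2, g3⟩ := hF1 p hp
    refine ⟨ι p.1, ι p.2, ?_, ?_, hclose, ?_⟩
    · rw [hc.norm]; exact g1.le
    · rw [hc.norm]; exact g2.le
    · rw [gg_codes hc]; exact g3

lemma cond_of_qq (hc : Codes X μ ι) {b : Bool} (h : QQ b ι) : Cond b μ := by
  classical
  intro x m n
  by_cases hx : 1 ≤ μ x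
  · exact Or.inl hx
  right
  push Not at hx
  set δ : ℝ := 1 / ((m : ℝ) + 1) with hδ
  have hδ0 : 0 < δ := by positivity
  let S : Type := {p : V × V // μ p.1 < 1 ∧ μ p.2 < 1 ∧ -δ < gg b μ x p.1 p.2}
  obtain ⟨t, ht⟩ := (isCompact_isFun n μ).elim_finite_subcover
    (fun s : S => {φ : Fin n → V → ℝ | Close φ x m s.1}) (fun s => isOpen_close x m s.1) (by
      intro φ hφ
      have h1 : ∀ i, ∃ f : StrongDual ℝ X, ‖f‖ ≤ 1 ∧ ∀ v, f (ι v) = φ i v := fun i =>
        exists_dual hc (hφ i)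
      choose f hf1 hf2 using h1
      obtain ⟨y, z, hy, hz, hyz, hg⟩ := h x (by rw [hc.norm]; exact hx) n f hf1 m
      -- the open set
      let O : Set (X × X) := {p | ‖p.1‖ < 1 ∧ ‖p.2‖ < 1 ∧ (∀ i, |f i p.1 - f i (ι x)| < δ ∧
        |f i p.2 - f i (ι x)| < δ) ∧ -δ < gg b (fun x : X => ‖x‖) (ι x) p.1 p.2}
      have hO2 : IsOpen {p : X × X | (∀ i, |f i p.1 - f i (ι x)| < δ ∧
          |f i p.2 - f i (ι x)| < δ) ∧ -δ < gg b (fun x : X => ‖x‖) (ι x) p.1 p.2} := by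
        have e : {p : X × X | ∀ i, |f i p.1 - f i (ι x)| < δ ∧ |f i p.2 - f i (ι x)| < δ} =
            ⋂ i, {p : X × X | |f i p.1 - f i (ι x)| < δ ∧ |f i p.2 - f i (ι x)| < δ} := by
          ext p
          rw [mem_iInter]
          rfl
        have e1 : IsOpen {p : X × X | ∀ i, |f i p.1 - f i (ι x)| < δ ∧
            |f i p.2 - f i (ι x)| < δ} := by
          rw [e]
          refine isOpen_iInter_of_finite fun i => ?_
          have e2 : IsOpen {p : X × X | |f i p.1 - f i (ι x)| < δ} :=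
            isOpen_lt ((((f i).continuous.comp continuous_fst).sub continuous_const).abs)
              continuous_const
          have e3 : IsOpen {p : X × X | |f i p.2 - f i (ι x)| < δ} :=
            isOpen_lt ((((f i).continuous.comp continuous_snd).sub continuous_const).abs)
              continuous_const
          exact e2.inter e3
        have e4 : IsOpen {p : X × X | -δ < gg b (fun x : X => ‖x‖) (ι x) p.1 p.2} :=
          isOpen_lt continuous_const (continuous_gg b (ι x))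
        exact e1.inter e4
      have hO : IsOpen O := by
        have e1 : IsOpen {p : X × X | ‖p.1‖ < 1} := isOpen_lt continuous_fst.norm continuous_const
        have e2 : IsOpen {p : X × X | ‖p.2‖ < 1} := isOpen_lt continuous_snd.norm continuous_const
        exact e1.inter (e2.inter hO2)
      have hOne : O.Nonempty := by
        have hcont : Continuous (fun t : ℝ => ((1 - t) • y, (1 - t) • z)) := by fun_prop
        have h0 : ((1 - (0 : ℝ)) • y, (1 - (0 : ℝ)) • z) ∈ {p : X × X |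
            (∀ i, |f i p.1 - f i (ι x)| < δ ∧ |f i p.2 - f i (ι x)| < δ) ∧
            -δ < gg b (fun x : X => ‖x‖) (ι x) p.1 p.2} := by
          rw [sub_zero, one_smul, one_smul]
          exact ⟨hyz, hg⟩
        have h1 : ∀ᶠ t : ℝ in 𝓝 0, ((1 - t) • y, (1 - t) • z) ∈ {p : X × X |
            (∀ i, |f i p.1 - f i (ι x)| < δ ∧ |f i p.2 - f i (ι x)| < δ) ∧
            -δ < gg b (fun x : X => ‖x‖) (ι x) p.1 p.2} :=
          hcont.continuousAt.eventually (hO2.mem_nhds h0)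
        have h2 : ∀ᶠ t : ℝ in 𝓝[>] 0, ((1 - t) • y, (1 - t) • z) ∈ {p : X × X |
            (∀ i, |f i p.1 - f i (ι x)| < δ ∧ |f i p.2 - f i (ι x)| < δ) ∧
            -δ < gg b (fun x : X => ‖x‖) (ι x) p.1 p.2} := h1.filter_mono nhdsWithin_le_nhds
        have h3 : ∀ᶠ t : ℝ in 𝓝[>] 0, t < 1 :=
          (eventually_lt_nhds (one_pos (α := ℝ))).filter_mono nhdsWithin_le_nhds
        obtain ⟨t, ⟨ht1, ht2⟩, ht3⟩ := ((h2.and h3).and self_mem_nhdsWithin).exists
        have ht3' : 0 < t := ht3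
        refine ⟨_, ?_, ?_, ht1⟩
        · show ‖(1 - t) • y‖ < 1
          rw [norm_smul, Real.norm_of_nonneg (by linarith)]
          nlinarith [norm_nonneg y]
        · show ‖(1 - t) • z‖ < 1
          rw [norm_smul, Real.norm_of_nonneg (by linarith)]
          nlinarith [norm_nonneg z]
      have hd : DenseRange (Prod.map ι ι : V × V → X × X) := hc.dense.prodMap hc.dense
      obtain ⟨_, hO', ⟨p, rfl⟩⟩ := hd.inter_open_nonempty O hO hOne
      obtain ⟨g1, g2, g3, g4⟩ := hO'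
      have g1' : ‖ι p.1‖ < 1 := g1
      have g2' : ‖ι p.2‖ < 1 := g2
      have g4' : -δ < gg b (fun x : X => ‖x‖) (ι x) (ι p.1) (ι p.2) := g4
      rw [hc.norm] at g1' g2'
      rw [gg_codes hc] at g4'
      refine mem_iUnion.2 ⟨⟨p, g1', g2', g4'⟩, ?_⟩
      intro i
      have h5 : |f i (ι p.1) - f i (ι x)| < δ ∧ |f i (ι p.2) - f i (ι x)| < δ := g3 i
      rw [hf2, hf2, hf2] at h5
      exact h5)
  refine ⟨t.image Subtype.val, ?_, ?_⟩
  · intro p hp
    obtain ⟨s, _, rfl⟩ := Finset.mem_image.1 hp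
    exact s.2
  · intro φ hφ
    obtain ⟨s, hs, hs'⟩ := mem_iUnion₂.1 (ht hφ)
    exact ⟨s.1, Finset.mem_image_of_mem _ hs, hs'⟩

lemma relopen_of_dual {n : ℕ} (f : Fin n → StrongDual ℝ X) (x : X) (δ : ℝ) :
    IsRelWeaklyOpen {y : X | ‖y‖ ≤ 1 ∧ ∀ i, |f i y - f i x| < δ} := by
  refine ⟨{y : WeakSpace ℝ X | ∀ i ∈ (Finset.univ : Finset (Fin n)),
    ‖f i ((toWeakSpace ℝ X).symm y) - f i x‖ < δ},
    R271.isOpen_weak_finset Finset.univ f (fun i => f i x) δ, ?_⟩
  ext y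
  constructor
  · rintro ⟨h1, h2⟩
    exact ⟨h1, fun i _ => h2 i⟩
  · rintro ⟨h1, h2⟩
    exact ⟨h1, fun i => h2 i (Finset.mem_univ i)⟩

lemma qq_of_d2p (h : D2P X) (ι : V →+ X) : QQ true ι := by
  intro v hv n f hf m
  set δ : ℝ := 1 / ((m : ℝ) + 1) with hδ
  have hδ0 : 0 < δ := by positivity
  have hδ1 : δ ≤ 1 := by
    rw [hδ, div_le_one (by positivity)]
    linarith [(Nat.cast_nonneg m : (0 : ℝ) ≤ m)]
  set W : Set X := {y : X | ‖y‖ ≤ 1 ∧ ∀ i, |f i y - f i (ι v)| < δ} with hW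
  have hmem : ι v ∈ W := ⟨hv.le, fun i => by rw [sub_self, abs_zero]; exact hδ0⟩
  have hd := h W (relopen_of_dual f (ι v) δ) ⟨_, hmem⟩
  by_contra hcon
  push Not at hcon
  have h1 : Metric.diam W ≤ 2 - δ := by
    apply Metric.diam_le_of_forall_dist_le (by linarith)
    intro y hy z hz
    have h2 := hcon y z hy.1 hz.1 (fun i => ⟨hy.2 i, hz.2 i⟩)
    have h3 : ‖y - z‖ - 2 ≤ -δ := h2
    rw [dist_eq_norm]
    linarith
  rw [hd] at h1
  linarith

lemma qq_of_dd2p (h : DD2P X) (ι : V →+ X) : QQ false ι := by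
  intro v hv n f hf m
  set δ : ℝ := 1 / ((m : ℝ) + 1) with hδ
  have hδ0 : 0 < δ := by positivity
  set W : Set X := {y : X | ‖y‖ ≤ 1 ∧ ∀ i, |f i y - f i (ι v)| < δ} with hW
  have hmem : ι v ∈ W := ⟨hv.le, fun i => by rw [sub_self, abs_zero]; exact hδ0⟩
  obtain ⟨y, hy, hyx⟩ := h W (relopen_of_dual f (ι v) δ) ⟨_, hmem⟩ (ι v) hmem (δ / 2)
    (by positivity)
  refine ⟨y, y, hy.1, hy.1, fun i => ⟨hy.2 i, hy.2 i⟩, ?_⟩
  show -δ < ‖ι v - y‖ - 1 - ‖ι v‖
  linarith

lemma local_of_qq (hc : Codes X μ ι) {b : Bool} (h : QQ b ι) {W : Set X}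
    (hW : IsRelWeaklyOpen W) {w : X} (hw : w ∈ W) {ε : ℝ} (hε : 0 < ε) :
    ∃ v : V, ‖ι v - w‖ < ε ∧ ∃ y ∈ W, ∃ z ∈ W, -ε < gg b (fun x : X => ‖x‖) (ι v) y z := by
  classical
  obtain ⟨U, hU, rfl⟩ := hW
  obtain ⟨hw1, hwU⟩ := hw
  obtain ⟨F, r, hr, hF⟩ := R271.exists_basic_weak_nhd hU hwU
  set B : ℝ := ∑ f ∈ F, ‖f‖ + 1 with hB
  have hBsum : 0 ≤ ∑ f ∈ F, ‖f‖ := Finset.sum_nonneg fun f _ => norm_nonneg f
  have hB0 : 0 < B := by linarith
  have hFB : ∀ f ∈ F, ‖f‖ ≤ B := by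
    intro f hf
    have := Finset.single_le_sum (f := fun f : StrongDual ℝ X => ‖f‖)
      (fun f _ => norm_nonneg f) hf
    linarith
  set r' : ℝ := min (r / (2 * B)) ε with hr'
  have hr'0 : 0 < r' := lt_min (by positivity) hε
  -- choose `v`
  obtain ⟨v, hv1, hv2⟩ : ∃ v : V, ‖ι v‖ < 1 ∧ ‖ι v - w‖ < r' := by
    have hO : IsOpen {u : X | ‖u‖ < 1 ∧ ‖u - w‖ < r'} :=
      (isOpen_lt continuous_norm continuous_const).inter
        (isOpen_lt (continuous_id.sub continuous_const).norm continuous_const)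
    have hne : {u : X | ‖u‖ < 1 ∧ ‖u - w‖ < r'}.Nonempty := by
      set t : ℝ := min (1 / 2) (r' / 2) with ht
      have ht0 : 0 < t := lt_min (by norm_num) (by positivity)
      have ht1 : t ≤ 1 / 2 := min_le_left _ _
      have ht2 : t ≤ r' / 2 := min_le_right _ _
      refine ⟨(1 - t) • w, ?_, ?_⟩
      · rw [norm_smul, Real.norm_of_nonneg (by linarith)]
        nlinarith [norm_nonneg w]
      · have e : (1 - t) • w - w = -(t • w) := by
          rw [sub_smul, one_smul]; abel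
        rw [e, norm_neg, norm_smul, Real.norm_of_nonneg ht0.le]
        nlinarith [norm_nonneg w]
    obtain ⟨_, hO', ⟨v, rfl⟩⟩ := hc.dense.inter_open_nonempty _ hO hne
    exact ⟨v, hO'.1, hO'.2⟩
  have hvF : ∀ f ∈ F, |f (ι v) - f w| ≤ r / 2 := by
    intro f hf
    rw [← map_sub]
    calc |f (ι v - w)| ≤ ‖f‖ * ‖ι v - w‖ := f.le_opNorm _
      _ ≤ B * (r / (2 * B)) := mul_le_mul (hFB f hf) (hv2.le.trans (min_le_left _ _))
          (norm_nonneg _) hB0.le
      _ = r / 2 := by field_simp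
  obtain ⟨m, hm⟩ := exists_nat_one_div_lt hr'0
  have hm1 : 1 / ((m : ℝ) + 1) < r / (2 * B) := hm.trans_le (min_le_left _ _)
  have hm2 : 1 / ((m : ℝ) + 1) < ε := hm.trans_le (min_le_right _ _)
  let e := F.equivFin
  obtain ⟨y, z, hy, hz, hyz, hg⟩ := h v hv1 F.card (fun i => B⁻¹ • ((e.symm i).1)) (fun i => by
    apply ContinuousLinearMap.opNorm_le_bound _ zero_le_one
    intro u
    rw [smul_apply, smul_eq_mul, norm_mul, norm_inv, Real.norm_of_nonneg hB0.le, one_mul,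
      inv_mul_le_iff₀ hB0]
    refine ((e.symm i).1.le_opNorm u).trans ?_
    exact mul_le_mul_of_nonneg_right (hFB _ (e.symm i).2) (norm_nonneg _)) m
  have key : ∀ u : X, (∀ i, |(B⁻¹ • ((e.symm i).1)) u - (B⁻¹ • ((e.symm i).1)) (ι v)| <
      1 / ((m : ℝ) + 1)) → toWeakSpace ℝ X u ∈ U := by
    intro u hu
    apply hF
    intro f hf
    have h1 := hu (e ⟨f, hf⟩)
    rw [Equiv.symm_apply_apply, smul_apply, smul_apply, smul_eq_mul, smul_eq_mul, ← mul_sub,
      abs_mul, abs_inv, abs_of_pos hB0] at h1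
    have h2 : |f u - f (ι v)| < r / 2 := by
      have h3 := h1.trans hm1
      rw [inv_mul_lt_iff₀ hB0] at h3
      have h4 : B * (r / (2 * B)) = r / 2 := by field_simp
      rwa [h4] at h3
    have h3 := hvF f hf
    have h4 : f u - f w = (f u - f (ι v)) + (f (ι v) - f w) := by ring
    rw [h4, Real.norm_eq_abs]
    have h5 := abs_add_le (f u - f (ι v)) (f (ι v) - f w)
    linarith
  refine ⟨v, hv2.trans_le (min_le_right _ _), y, ⟨hy, key y fun i => (hyz i).1⟩, z,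
    ⟨hz, key z fun i => (hyz i).2⟩, ?_⟩
  linarith

lemma d2p_of_qq (hc : Codes X μ ι) (h : QQ true ι) : D2P X := by
  rintro W hW ⟨w, hw⟩
  have hsub : W ⊆ closedBall 0 1 := by
    obtain ⟨U, _, rfl⟩ := hW
    intro x hx
    rw [mem_closedBall_zero_iff]
    exact hx.1
  have hbdd : Bornology.IsBounded W := isBounded_closedBall.subset hsub
  apply le_antisymm
  · apply Metric.diam_le_of_forall_dist_le (by norm_num)
    intro y hy z hz
    have h1 := mem_closedBall_zero_iff.1 (hsub hy)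
    have h2 := mem_closedBall_zero_iff.1 (hsub hz)
    rw [dist_eq_norm]
    exact (norm_sub_le _ _).trans (by linarith)
  · apply le_of_forall_pos_le_add
    intro ε hε
    obtain ⟨v, _, y, hy, z, hz, hg⟩ := local_of_qq hc h hW hw hε
    have h1 : -ε < ‖y - z‖ - 2 := hg
    have h2 := Metric.dist_le_diam_of_mem hbdd hy hz
    rw [dist_eq_norm] at h2
    linarith

lemma dd2p_of_qq (hc : Codes X μ ι) (h : QQ false ι) : DD2P X := by
  intro W hW _ w hw ε hε
  obtain ⟨v, hv, y, hy, z, hz, hg⟩ := local_of_qq hc h hW hw (show 0 < ε / 3 by positivity)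
  refine ⟨y, hy, ?_⟩
  have h1 : -(ε / 3) < ‖ι v - y‖ - 1 - ‖ι v‖ := hg
  have h2 : ‖ι v - y‖ ≤ ‖ι v - w‖ + ‖w - y‖ := by
    have := norm_add_le (ι v - w) (w - y)
    rwa [sub_add_sub_cancel] at this
  have h3 : ‖w‖ ≤ ‖ι v‖ + ‖ι v - w‖ := by
    have := norm_sub_le (ι v) (ι v - w)
    rwa [sub_sub_cancel] at this
  linarith

lemma d2p_iff (hc : Codes X μ ι) : D2P X ↔ Cond true μ :=
  ⟨fun h => cond_of_qq hc (qq_of_d2p h ι), fun h => d2p_of_qq hc (qq_of_cond hc h)⟩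

lemma dd2p_iff (hc : Codes X μ ι) : DD2P X ↔ Cond false μ :=
  ⟨fun h => cond_of_qq hc (qq_of_dd2p h ι), fun h => dd2p_of_qq hc (qq_of_cond hc h)⟩

end space

lemma class_eq (b : Bool) (Q : ∀ (X : Type) [NormedAddCommGroup X] [NormedSpace ℝ X], Prop)
    (hQ : ∀ (X : Type) [NormedAddCommGroup X] [NormedSpace ℝ X] (μ : V → ℝ) (ι : V →+ X),
      Codes X μ ι → (Q X ↔ Cond b μ)) :
    IsGδ (classOf Q) ∧ ∀ (μ : Pinf) (X : Type) [NormedAddCommGroup X] [NormedSpace ℝ X]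
      (ι : V →+ X), Codes X μ.1.1 ι → (μ ∈ classOf Q ↔ Q X) := by
  have h1 : ∀ μ : Pinf, μ ∈ classOf Q ↔ Cond b μ.1.1 := by
    intro μ
    constructor
    · rintro ⟨X, i1, i2, ι, hc, hX⟩
      exact (hQ X _ ι hc).1 hX
    · intro h
      obtain ⟨X, i1, i2, ι, hc⟩ := exists_codes μ.1.2
      exact ⟨X, i1, i2, ι, hc, (hQ X _ ι hc).2 h⟩
  refine ⟨?_, ?_⟩
  · have h2 : classOf Q = (fun μ : Pinf => μ.1) ⁻¹' {μ : PN | Cond b μ.1} := by
      ext μ
      exact h1 μ
    rw [h2]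
    exact (isGdelta_cond b).preimage continuous_subtype_val
  · intro μ X _ _ ι hc
    rw [h1 μ]
    exact (hQ X _ ι hc).symm

/-- Both classes of the problem are `G_δ` in `𝒫_∞`. Moreover each pseudonorm codes a Banach space,
and the membership in the classes does not depend on the choice of the completion. -/
theorem result :
    (IsGδ (classOf @D2P) ∧ IsGδ (classOf @DD2P)) ∧
    (∀ μ : PN, ∃ (X : Type) (_ : NormedAddCommGroup X) (_ : NormedSpace ℝ X) (ι : V →+ X),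
      Codes X μ.1 ι) ∧
    ∀ (μ : Pinf) (X : Type) [NormedAddCommGroup X] [NormedSpace ℝ X] (ι : V →+ X),
      Codes X μ.1.1 ι → (μ ∈ classOf @D2P ↔ D2P X) ∧ (μ ∈ classOf @DD2P ↔ DD2P X) := by
  have h1 := class_eq true @D2P (fun X _ _ μ ι hc => d2p_iff hc)
  have h2 := class_eq false @DD2P (fun X _ _ μ ι hc => dd2p_iff hc)
  exact ⟨⟨h1.1, h2.1⟩, fun μ => exists_codes μ.2, fun μ X _ _ ι hc =>
    ⟨h1.2 μ X ι hc, h2.2 μ X ι hc⟩⟩

end Pool.Agent.Results.MP_146262_an.DiameterTwoGdelta
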